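import Mathlib

set_option autoImplicit false

namespace Pool.Agent.Results.MP_d395f7_lc.Definable

open Polynomial FirstOrder FirstOrder.Language Function

lemma fib_eq {F : ℂ[X]} (h : 0 < F.natDegree) (c : ℂ) :
    {a | F.eval a = c} = ((F - C c).roots.toFinset : Set ℂ) := by
  have : F - C c ≠ 0 := fun e => by
    rw [sub_eq_zero.1 e, natDegree_C] at h; exact lt_irrefl _ h
  ext a; simp [this, sub_eq_zero]

lemma fib_le {F : ℂ[X]} (h : 0 < F.natDegree) (c : ℂ) :
    {a | F.eval a = c}.ncard ≤ F.natDegree := by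
  rw [fib_eq h, Set.ncard_coe_finset, ← natDegree_sub_C (a := c)]
  exact (Multiset.toFinset_card_le _).trans (card_roots' _)

lemma fib_max {F : ℂ[X]} (h : 0 < F.natDegree) :
    ∃ c, {a | F.eval a = c}.ncard = F.natDegree := by
  have h0 : F.derivative ≠ 0 := fun e => h.ne' (derivative_eq_zero.1 e)
  obtain ⟨c, hc⟩ := Infinite.exists_notMem_finset (F.derivative.roots.toFinset.image F.eval)
  refine ⟨c, ?_⟩
  have hs : (F - C c).Separable := by
    rw [separable_def, isCoprime_iff_aeval_ne_zero_of_isAlgClosed ℂ ℂ]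
    intro a
    by_contra hh
    push Not at hh
    simp only [coe_aeval_eq_eval, eval_sub, eval_C, derivative_sub, derivative_C, sub_zero,
      sub_eq_zero] at hh
    exact hc (Finset.mem_image.2 ⟨a, by simp [h0, hh.2], hh.1⟩)
  rw [fib_eq h, Set.ncard_coe_finset, Multiset.toFinset_card_of_nodup (nodup_roots hs),
    IsAlgClosed.card_roots_eq_natDegree, natDegree_sub_C]

/-- comparison of fibres -/
def Le (F G : ℂ[X]) : Prop :=
  ∀ c : ℂ, ∃ (d : ℂ) (h : ℂ[X]), (∀ a, F.eval a = c → G.eval (h.eval a) = d) ∧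
    ∀ a a', F.eval a = c → F.eval a' = c → h.eval a = h.eval a' → a = a'

lemma le_iff {F G : ℂ[X]} (hF : 0 < F.natDegree) (hG : 0 < G.natDegree) :
    Le F G ↔ F.natDegree ≤ G.natDegree := by
  constructor
  · intro H
    obtain ⟨c, hc⟩ := fib_max hF
    obtain ⟨d, h, h1, h2⟩ := H c
    rw [← hc]
    refine (Set.ncard_le_ncard_of_injOn (fun a => h.eval a) h1
      (fun a ha a' ha' => h2 a a' ha ha') ?_).trans (fib_le hG d)
    rw [fib_eq hG]; exact Finset.finite_toSet _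
  · intro H c
    obtain ⟨d, hd⟩ := fib_max hG
    have h1 := (fib_le hF c).trans (H.trans hd.ge)
    have e1 := fib_eq hF c
    have e2 := fib_eq hG d
    rw [e1, e2, Set.ncard_coe_finset, Set.ncard_coe_finset] at h1
    obtain ⟨φ, h2, h3⟩ := Set.Finite.exists_injOn_of_encard_le (s := {a | F.eval a = c})
      (t := {a | G.eval a = d}) (e1 ▸ Finset.finite_toSet _) (by
        rw [e1, e2, Set.encard_coe_eq_coe_finsetCard, Set.encard_coe_eq_coe_finsetCard]
        exact_mod_cast h1)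
    have k : ∀ a, F.eval a = c →
        (Lagrange.interpolate (F - C c).roots.toFinset id φ).eval a = φ a := fun a ha =>
      Lagrange.eval_interpolate_at_node φ (injective_id.injOn) (Finset.mem_coe.1 (e1 ▸ ha))
    refine ⟨d, Lagrange.interpolate (F - C c).roots.toFinset id φ, fun a ha => ?_,
      fun a a' ha ha' e => h3 ha ha' ?_⟩
    · rw [k a ha]; exact h2 ha
    · rw [← k a ha, e, k a' ha']

lemma le_zero {G : ℂ[X]} (hG : 0 < G.natDegree) : ¬ Le 0 G := by
  intro H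
  obtain ⟨d, h, h1, h2⟩ := H 0
  refine Set.infinite_univ (α := ℂ) (Set.Finite.of_injOn (f := fun a => h.eval a)
    (t := {a | G.eval a = d}) (fun a _ => h1 a (by simp)) (fun a _ a' _ => h2 a a' (by simp)
      (by simp)) ?_)
  rw [fib_eq hG]; exact Finset.finite_toSet _

lemma deg_iff (f g : ℂ[X]) : f.degree = g.degree ↔ Le (X * f) (X * g) ∧ Le (X * g) (X * f) := by
  have p : ∀ f : ℂ[X], f ≠ 0 → 0 < (X * f).natDegree := fun f h => by
    rw [natDegree_X_mul h]; omega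
  have z : Le 0 0 := fun c => ⟨0, X, by simp, by simp +contextual⟩
  by_cases hf : f = 0 <;> by_cases hg : g = 0
  · simp [hf, hg, z]
  · simp [hf, hg, le_zero (p g hg), eq_comm (a := (⊥ : WithBot ℕ))]
  · simp [hf, hg, le_zero (p f hf)]
  · rw [le_iff (p f hf) (p g hg), le_iff (p g hg) (p f hf), natDegree_X_mul hf, natDegree_X_mul hg,
      degree_eq_natDegree hf, degree_eq_natDegree hg, Nat.cast_inj]
    omega

/-- constants -/
def Co (x : ℂ[X]) : Prop := ∃ y, x * (x * y + -1) = 0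

lemma co_iff (x : ℂ[X]) : Co x ↔ ∃ c, C c = x := by
  constructor
  · rintro ⟨y, hy⟩
    rcases mul_eq_zero.1 hy with rfl | h
    · exact ⟨0, C_0⟩
    · obtain ⟨c, -, hc⟩ := Polynomial.isUnit_iff.1 (IsUnit.of_mul_eq_one y (add_neg_eq_zero.1 h))
      exact ⟨c, hc⟩
  · rintro ⟨c, rfl⟩
    by_cases h : c = 0
    · exact ⟨0, by simp [h]⟩
    · exact ⟨C c⁻¹, by rw [← C_mul, mul_inv_cancel₀ h]; simp⟩

/-- evaluation -/
def Ev (t p a b : ℂ[X]) : Prop := ∃ q, p = b + (t + -a) * q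

lemma ev_iff (p : ℂ[X]) (a b : ℂ) : Ev X p (C a) (C b) ↔ p.eval a = b := by
  constructor
  · rintro ⟨q, rfl⟩; simp
  · rintro rfl
    obtain ⟨q, hq⟩ := X_sub_C_dvd_sub_C_eval (p := p) (a := a)
    exact ⟨q, by rw [← sub_eq_add_neg, ← hq]; ring⟩

/-- first order form of the comparison -/
def Le' (t F G : ℂ[X]) : Prop :=
  ∀ c, Co c → ∃ d h, Co d ∧ ∀ a a' b, Co a → Co a' → Co b → Ev t F a c → Ev t h a b →
    (Ev t G b d ∧ (Ev t F a' c → Ev t h a' b → a = a'))

lemma le'_iff (F G : ℂ[X]) : Le' X F G ↔ Le F G := by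
  simp only [Le', co_iff, forall_exists_index, forall_apply_eq_imp_iff]
  refine forall_congr' fun c => ⟨?_, ?_⟩
  · rintro ⟨_, h, ⟨d, rfl⟩, H⟩
    refine ⟨d, h, fun a ha => ?_, fun a a' ha ha' e => ?_⟩
    · exact (ev_iff _ _ _).1 (H _ _ _ a rfl a rfl _ rfl ((ev_iff _ _ _).2 ha)
        ((ev_iff _ _ _).2 rfl)).1
    · exact C_injective ((H _ _ _ a rfl a' rfl _ rfl ((ev_iff _ _ _).2 ha)
        ((ev_iff _ _ _).2 rfl)).2 ((ev_iff _ _ _).2 ha') ((ev_iff _ _ _).2 e.symm))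
  · rintro ⟨d, h, h1, h2⟩
    refine ⟨_, h, ⟨d, rfl⟩, ?_⟩
    rintro _ _ _ a rfl a' rfl b rfl
    simp only [ev_iff]
    rintro ha rfl
    exact ⟨h1 a ha, fun ha' e => congrArg C (h2 a a' ha ha' e.symm)⟩

section
variable [Ring.CompatibleRing ℂ[X]]

/-- definable predicates on assignments -/
def D (S : (ℕ → ℂ[X]) → Prop) : Prop :=
  (Set.univ : Set ℂ[X]).Definable Language.ring {v | S v}

lemma D.ex (i : ℕ) {S : ℂ[X] → (ℕ → ℂ[X]) → Prop} (h : D fun v => S (v i) v)
    (hS : ∀ x y v, S x (update v i y) ↔ S x v) : D fun v => ∃ x, S x v := by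
  have := (h.preimage_comp fun j => if j = i then Sum.inr () else Sum.inl j).exists_of_finite
  have e : ∀ (v : ℕ → ℂ[X]) (u : Unit → ℂ[X]), (Sum.elim v u ∘ fun j =>
      if j = i then Sum.inr () else Sum.inl j) = update v i (u ()) := by
    intro v u; funext j
    by_cases hj : j = i <;> simp [hj]
  simp only [Set.mem_preimage, Set.mem_ofPred_eq, e, update_self, hS] at this
  unfold D
  rwa [show {v | ∃ x, S x v} = {v | ∃ u : Unit → ℂ[X], S (u ()) v} from
    Set.ext fun v => ⟨fun ⟨x, hx⟩ => ⟨fun _ => x, hx⟩, fun ⟨u, hu⟩ => ⟨_, hu⟩⟩]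

lemma D.not {S : (ℕ → ℂ[X]) → Prop} (h : D S) : D fun v => ¬ S v := h.compl

lemma D.and {S T : (ℕ → ℂ[X]) → Prop} (h : D S) (h' : D T) : D fun v => S v ∧ T v := h.inter h'

lemma D.imp {S T : (ℕ → ℂ[X]) → Prop} (h : D S) (h' : D T) : D fun v => S v → T v := by
  simpa only [not_and, not_not] using (h.and h'.not).not

lemma D.all (i : ℕ) {S : ℂ[X] → (ℕ → ℂ[X]) → Prop} (h : D fun v => S (v i) v)
    (hS : ∀ x y v, S x (update v i y) ↔ S x v) : D fun v => ∀ x, S x v := by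
  simpa only [not_exists, not_not] using (D.ex i (S := fun x v => ¬ S x v) h.not
    fun x y v => not_congr (hS x y v)).not

lemma D.eq (s t : Language.ring.Term ℕ) : D fun v => s.realize v = t.realize v :=
  (s.definableFun_realize.of_empty).ofPred_eq t.definableFun_realize.of_empty

lemma D.co (i : ℕ) : D fun v => Co (v i) :=
  D.ex (i + 1) (by simpa using D.eq (.var i * (.var i * .var (i + 1) + -1)) 0) (by simp)

lemma D.ev (t p a b : ℕ) (ht : t < 20) (hp : p < 20) (ha : a < 20) (hb : b < 20) :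
    D fun v => Ev (v t) (v p) (v a) (v b) :=
  D.ex 20 (by simpa using D.eq (.var p) (.var b + (.var t + -.var a) * .var 20))
    (by simp [ht.ne, hp.ne, ha.ne, hb.ne])

lemma D.le (F G : ℕ) (hF : F < 10) (hG : G < 10) : D fun v => Le' (v 2) (v F) (v G) := by
  have : ∀ k, 10 ≤ k → F ≠ k ∧ G ≠ k := fun k hk => by omega
  refine D.all 10 ((D.co _).imp (D.ex 11 (D.ex 12 ((D.co _).and (D.all 13 (D.all 14 (D.all 15
    ((D.co _).imp ((D.co _).imp ((D.co _).imp ((D.ev _ _ _ _ ?_ ?_ ?_ ?_).imp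
    ((D.ev _ _ _ _ ?_ ?_ ?_ ?_).imp ((D.ev _ _ _ _ ?_ ?_ ?_ ?_).and
    ((D.ev _ _ _ _ ?_ ?_ ?_ ?_).imp ((D.ev _ _ _ _ ?_ ?_ ?_ ?_).imp
    (D.eq (.var 13) (.var 14)))))))))) ?_) ?_) ?_)) ?_) ?_)) ?_ <;>
  first | omega | simp [this]

end

theorem result [Ring.CompatibleRing ℂ[X]] : (Set.univ : Set ℂ[X]).Definable₂ Language.ring
    {p : ℂ[X] × ℂ[X] | p.1.degree = p.2.degree} := by
  have h0 : D fun v => v 2 = X := (Set.DefinableFun.proj _).ofPred_eq_const (Set.mem_univ _)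
  have h : D fun v => ∃ t, t = X ∧ ∃ F, F = t * v 0 ∧ ∃ G, G = t * v 1 ∧ Le' t F G ∧ Le' t G F :=
    D.ex 2 (h0.and (D.ex 3 (D.and (by simpa using D.eq (.var 3) (.var 2 * .var 0))
      (D.ex 4 (D.and (by simpa using D.eq (.var 4) (.var 2 * .var 1))
        ((D.le 3 4 (by omega) (by omega)).and (D.le 4 3 (by omega) (by omega)))) (by simp)))
      (by simp))) (by simp)
  have := h.preimage_comp fun i => if i = 0 then (0 : Fin 2) else 1
  simpa [Set.Definable₂, le'_iff, deg_iff] using this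

end Pool.Agent.Results.MP_d395f7_lc.Definable
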